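import Pool.Agent.MP_8ad0a3_lc.Lower
import Pool.Agent.MP_8ad0a3_lc.ValUp

/-!
# MP_8ad0a3_lc: the basic-LP approximability threshold need not be continuous at 1
-/

open Finset Filter Topology

namespace Pool.Agent.Results.MP_8ad0a3_lc.Discontinuous

open Pool.Agent.MP_8ad0a3_lc

/-- The instance consisting of one disjunction. -/
noncomputable def oneG (C L : ℕ) : Inst (Sym C L) (5 + 128) (Fam 128 C L) where
  V := Fin (5 + 128)
  fin := inferInstance
  m := 1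
  m_pos := one_pos
  e := fun _ j => j
  e_inj := fun _ => Function.injective_id
  f := fun _ => bG
  f_mem := fun _ => Or.inl rfl

theorem oneG_lp (C L : ℕ) [NeZero C] [NeZero L] : 1 ≤ (oneG C L).lpVal := by
  refine (oneG C L).valOf_le_lpVal (fun _ => (true, 0, Sum.inl 0)) ?_
  intro i
  change bG (fun _ : Fin (5 + 128) => ((true, 0, Sum.inl 0) : Sym C L)) = true
  rw [bG_iff]
  exact ⟨0, rfl⟩

theorem fam_ne (C L : ℕ) [NeZero C] [NeZero L] :
    ¬ ∀ f ∈ Fam 128 C L, ∀ a, f a = false := by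
  intro h
  have h1 := h bG (Or.inl rfl) (fun _ => ((true, 0, Sum.inl 0) : Sym C L))
  have h2 : bG (fun _ : Fin (5 + 128) => ((true, 0, Sum.inl 0) : Sym C L)) = true := by
    rw [bG_iff]
    exact ⟨0, rfl⟩
  rw [h2] at h1
  exact absurd h1 (by decide)

theorem star_eq (C L : ℕ) [NeZero C] [NeZero L] (c : ℝ) : thetaStar (Fam 128 C L) c =
    sInf {r : ℝ | ∃ I : Inst (Sym C L) (5 + 128) (Fam 128 C L), c ≤ I.lpVal ∧ r = I.val} := by
  unfold thetaStar
  rw [if_neg (fam_ne C L)]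

theorem star_mono (C L : ℕ) [NeZero C] [NeZero L] {c c' : ℝ} (h : c ≤ c') (h' : c' ≤ 1) :
    thetaStar (Fam 128 C L) c ≤ thetaStar (Fam 128 C L) c' := by
  rw [star_eq, star_eq]
  refine csInf_le_csInf ?_ ?_ ?_
  · refine ⟨0, ?_⟩
    rintro r ⟨I, -, rfl⟩
    exact I.val_nonneg
  · exact ⟨_, oneG C L, h'.trans (oneG_lp C L), rfl⟩
  · rintro r ⟨I, hI, hr⟩
    exact ⟨I, h.trans hI, hr⟩

theorem star_one (C L : ℕ) [NeZero C] [NeZero L] :
    (1 / 2 - 2 / L : ℝ) ≤ thetaStar (Fam 128 C L) 1 := by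
  rw [star_eq]
  refine le_csInf ⟨_, oneG C L, oneG_lp C L, rfl⟩ ?_
  rintro r ⟨I, hI, rfl⟩
  exact exact_lower I hI

theorem star_lt (C L : ℕ) [NeZero C] [NeZero L] (c : ℝ) (hc : c < 1) :
    thetaStar (Fam 128 C L) c ≤ (119 * C + 120) / (239 * C) := by
  obtain ⟨n, hn⟩ := exists_nat_gt (1 / (1 - c))
  have h1 : 0 < 1 - c := by linarith
  set K : ℕ := n + 2 with hK
  have : NeZero K := ⟨by omega⟩
  have hK1 : (n : ℝ) ≤ K := by rw [hK]; push_cast; linarith
  have hK0 : (0 : ℝ) < K := by exact_mod_cast (by omega : 0 < K)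
  rw [star_eq]
  have hval : (NI K C L).val ≤ (119 * C + 120) / (239 * C) := NI_val K C L (by omega)
  refine le_trans (csInf_le ?_ ⟨NI K C L, ?_, rfl⟩) hval
  · refine ⟨0, ?_⟩
    rintro r ⟨I, -, rfl⟩
    exact I.val_nonneg
  · refine le_trans ?_ (NI_lp K C L)
    have h2 : 1 / (1 - c) < K := lt_of_lt_of_le hn hK1
    have h3 : 1 < K * (1 - c) := by rwa [div_lt_iff₀ h1] at h2
    have h4 : 1 / (128 * K : ℝ) ≤ 1 - c := by
      rw [div_le_iff₀ (by positivity)]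
      nlinarith
    linarith

/-- **The threshold function of the basic LP need not be continuous at `1`.**  There are a finite
alphabet `S`, an arity `k` and a family `F` of predicates such that `ϑ_F(c) ≤ 0.4985` for all
`c < 1` whereas `ϑ_F(1) ≥ 0.499`; in particular the left limit of `ϑ_F` at `1` (which exists) is
strictly smaller than `ϑ_F(1)`. -/
theorem result : ∃ (S : Type) (_ : Fintype S) (k : ℕ) (F : Set ((Fin k → S) → Bool)),
    1 ≤ k ∧ (∀ c : ℝ, c < 1 → theta F c ≤ 4985 / 10000) ∧ 499 / 1000 ≤ theta F 1 ∧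
    (∃ ℓ : ℝ, Tendsto (theta F) (𝓝[<] 1) (𝓝 ℓ) ∧ ℓ < theta F 1) ∧
    ¬ ContinuousWithinAt (theta F) (Set.Icc 0 1) 1 := by
  have : NeZero (1000 : ℕ) := ⟨by norm_num⟩
  have : NeZero (2000 : ℕ) := ⟨by norm_num⟩
  have hlt : ∀ c : ℝ, c < 1 → theta (Fam 128 1000 2000) c ≤ 4985 / 10000 := by
    intro c hc
    refine (min_le_right _ _).trans ((star_lt 1000 2000 c hc).trans ?_)
    norm_num
  have h1 : (499 / 1000 : ℝ) ≤ theta (Fam 128 1000 2000) 1 := by
    refine le_min (by norm_num) (le_trans ?_ (star_one 1000 2000))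
    norm_num
  have hmono : MonotoneOn (theta (Fam 128 1000 2000)) (Set.Iio (1 : ℝ)) := by
    intro c _ c' hc' h
    exact min_le_min h (star_mono 1000 2000 h (le_of_lt hc'))
  have hbdd : BddAbove (theta (Fam 128 1000 2000) '' Set.Iio (1 : ℝ)) := by
    refine ⟨4985 / 10000, ?_⟩
    rintro r ⟨c, hc, rfl⟩
    exact hlt c hc
  have hlim := hmono.tendsto_nhdsLT hbdd
  have hsup : sSup (theta (Fam 128 1000 2000) '' Set.Iio (1 : ℝ)) ≤ 4985 / 10000 := by
    refine csSup_le ⟨_, 0, by simp, rfl⟩ ?_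
    rintro r ⟨c, hc, rfl⟩
    exact hlt c hc
  have hstrict : sSup (theta (Fam 128 1000 2000) '' Set.Iio (1 : ℝ)) <
      theta (Fam 128 1000 2000) 1 := by
    refine lt_of_le_of_lt hsup (lt_of_lt_of_le ?_ h1)
    norm_num
  refine ⟨Sym 1000 2000, inferInstance, 5 + 128, Fam 128 1000 2000, by norm_num, hlt, h1,
    ⟨_, hlim, hstrict⟩, ?_⟩
  intro hcont
  have h2 : Tendsto (theta (Fam 128 1000 2000)) (𝓝[Set.Ico 0 1] 1)
      (𝓝 (theta (Fam 128 1000 2000) 1)) := hcont.mono_left (nhdsWithin_mono _ Set.Ico_subset_Icc_self)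
  have h3 : Tendsto (theta (Fam 128 1000 2000)) (𝓝[Set.Ico 0 1] 1)
      (𝓝 (sSup (theta (Fam 128 1000 2000) '' Set.Iio (1 : ℝ)))) :=
    hlim.mono_left (nhdsWithin_mono _ Set.Ico_subset_Iio_self)
  have : (𝓝[Set.Ico (0 : ℝ) 1] (1 : ℝ)).NeBot := by
    rw [nhdsWithin_Ico_eq_nhdsLT (by norm_num : (0 : ℝ) < 1)]
    infer_instance
  exact absurd (tendsto_nhds_unique h2 h3) hstrict.ne'

end Pool.Agent.Results.MP_8ad0a3_lc.Discontinuous
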